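import Pool.Agent.U962.NearPerfect

set_option autoImplicit false

namespace Pool.Agent.Results.MP_24a6f7_nt.TwoNearPerfectClassification

/-- A positive integer `n` is 2-near perfect if `σ(n) = 2n + d₁ + d₂` for two distinct positive
divisors `d₁ ≠ d₂` of `n`. (As `n > 0`, natural numbers dividing `n` are positive.) -/
def Is2NearPerfect (n : ℕ) : Prop :=
  0 < n ∧ ∃ d₁ d₂ : ℕ, d₁ ∣ n ∧ d₂ ∣ n ∧ d₁ ≠ d₂ ∧ ∑ d ∈ n.divisors, d = 2 * n + d₁ + d₂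

lemma sigma_eq (k m p : ℕ) (hp : p.Prime) (hp2 : p ≠ 2) :
    ((p : ℤ) - 1) * ((∑ d ∈ (2 ^ k * p ^ m).divisors, d : ℕ) : ℤ) =
      ((2 : ℤ) ^ (k + 1) - 1) * ((p : ℤ) ^ (m + 1) - 1) := by
  have hcop : Nat.Coprime (2 ^ k) (p ^ m) := by
    apply Nat.Coprime.pow
    exact (Nat.coprime_primes Nat.prime_two hp).2 (Ne.symm hp2)
  rw [Nat.Coprime.sum_divisors_mul hcop, Nat.sum_divisors_prime_pow Nat.prime_two,
    Nat.sum_divisors_prime_pow hp]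
  push_cast
  have h1 : (∑ i ∈ Finset.range (k + 1), (2 : ℤ) ^ i) = 2 ^ (k + 1) - 1 := by
    have := geom_sum_mul (2 : ℤ) (k + 1)
    linarith
  have h2 : (∑ i ∈ Finset.range (m + 1), (p : ℤ) ^ i) * ((p : ℤ) - 1) = p ^ (m + 1) - 1 :=
    geom_sum_mul (p : ℤ) (m + 1)
  rw [h1, ← h2]
  ring

/-- every divisor of `2^k p^m` has the form `2^a p^b` -/
lemma dvd_form (k m p d : ℕ) (hp : p.Prime) (h : d ∣ 2 ^ k * p ^ m) :
    ∃ a b, a ≤ k ∧ b ≤ m ∧ d = 2 ^ a * p ^ b := by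
  obtain ⟨u, v, hu, hv, rfl⟩ := (Nat.dvd_mul).1 h
  obtain ⟨a, ha, rfl⟩ := (Nat.dvd_prime_pow Nat.prime_two).1 hu
  obtain ⟨b, hb, rfl⟩ := (Nat.dvd_prime_pow hp).1 hv
  exact ⟨a, b, ha, hb, rfl⟩

lemma forward (k m p : ℕ) (hk : 1 ≤ k) (hm : 3 ≤ m) (hp : p.Prime) (hp2 : p ≠ 2)
    (h : Is2NearPerfect (2 ^ k * p ^ m)) : m = 3 ∧ p + 1 = 2 ^ (k + 1) := by
  obtain ⟨-, d1, d2, hd1, hd2, hne, hs⟩ := h
  obtain ⟨a1, b1, ha1, hb1, rfl⟩ := dvd_form k m p d1 hp hd1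
  obtain ⟨a2, b2, ha2, hb2, rfl⟩ := dvd_form k m p d2 hp hd2
  have hp3 : 3 ≤ p := by
    have := hp.two_le
    omega
  have hodd : ¬ (2 : ℤ) ∣ (p : ℤ) := by
    intro hdv
    have h2 : 2 ∣ p := by exact_mod_cast hdv
    exact hp2 ((Nat.prime_dvd_prime_iff_eq Nat.prime_two hp).1 h2).symm
  have hsig := sigma_eq k m p hp hp2
  rw [hs] at hsig
  push_cast at hsig
  have key : ∀ a1 a2 b1 b2 : ℕ, a1 ≤ k → a2 ≤ k → b2 ≤ m → b1 ≤ b2 → (b1 = b2 → a1 ≠ a2) →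
      ((p : ℤ) - 1) * (2 * (2 ^ k * (p : ℤ) ^ m) + 2 ^ a1 * (p : ℤ) ^ b1 + 2 ^ a2 * (p : ℤ) ^ b2)
        = ((2 : ℤ) ^ (k + 1) - 1) * ((p : ℤ) ^ (m + 1) - 1) →
      m = 3 ∧ p + 1 = 2 ^ (k + 1) := by
    intro a1 a2 b1 b2 ha1 ha2 hb2 hb hne' hE
    have := Pool.Agent.U962.NearPerfect.master (p : ℤ) k m a1 a2 b1 b2 (by exact_mod_cast hp3)
      hodd hk hm ha1 ha2 hb2 hb hne' (by
        have h1 : (2 : ℤ) ^ (k + 1) = 2 * 2 ^ k := pow_succ' _ _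
        have h2 : (p : ℤ) ^ (m + 1) = p * p ^ m := pow_succ' _ _
        rw [h1, h2] at hE
        rw [h1]
        linear_combination (-1 : ℤ) * hE)
    refine ⟨this.1, ?_⟩
    exact_mod_cast this.2
  rcases le_total b1 b2 with hb | hb
  · refine key a1 a2 b1 b2 ha1 ha2 hb2 hb ?_ hsig
    rintro rfl rfl
    exact hne rfl
  · refine key a2 a1 b2 b1 ha2 ha1 hb1 hb ?_ (by rw [← hsig]; ring)
    rintro rfl rfl
    exact hne rfl

lemma backward (k p : ℕ) (hp : p.Prime) (hp2 : p ≠ 2) (h : p + 1 = 2 ^ (k + 1)) :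
    Is2NearPerfect (2 ^ k * p ^ 3) := by
  have hp3 : 3 ≤ p := by
    have := hp.two_le
    omega
  refine ⟨by positivity, p, p ^ 2, ?_, ?_, ?_, ?_⟩
  · exact (dvd_pow_self p (by norm_num)).mul_left _
  · exact (pow_dvd_pow p (by norm_num)).mul_left _
  · intro h1
    nlinarith
  · have hsig := sigma_eq k 3 p hp hp2
    have h1 : (2 : ℤ) ^ (k + 1) = p + 1 := by exact_mod_cast h.symm
    have h2 : 2 * (2 : ℤ) ^ k = p + 1 := by rw [← h1, pow_succ']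
    have h3 : ((∑ d ∈ (2 ^ k * p ^ 3).divisors, d : ℕ) : ℤ) =
        2 * (2 ^ k * (p : ℤ) ^ 3) + p + p ^ 2 := by
      have h4 : (p : ℤ) - 1 ≠ 0 := by
        have : (3 : ℤ) ≤ p := by exact_mod_cast hp3
        linarith
      apply mul_left_cancel₀ h4
      rw [hsig, h1]
      linear_combination (-((p : ℤ) - 1) * (p : ℤ) ^ 3) * h2
    exact_mod_cast h3

/-- Let `k ≥ 1`, `m ≥ 3` and `p` an odd prime. Then `2^k p^m` is 2-near perfect if and only if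
`m = 3` and `p = 2^(k+1) - 1`. Consequently the question (finiteness for every fixed `m ≥ 3`) is
equivalent to the finiteness of the set of Mersenne primes. -/
theorem result :
    (∀ k m p : ℕ, 1 ≤ k → 3 ≤ m → p.Prime → p ≠ 2 →
      (Is2NearPerfect (2 ^ k * p ^ m) ↔ m = 3 ∧ p + 1 = 2 ^ (k + 1))) ∧
    ((∀ m : ℕ, 3 ≤ m →
        {n : ℕ | ∃ k p : ℕ, 1 ≤ k ∧ p.Prime ∧ p ≠ 2 ∧ n = 2 ^ k * p ^ m ∧
          Is2NearPerfect n}.Finite) ↔
      {p : ℕ | p.Prime ∧ ∃ q : ℕ, p = 2 ^ q - 1}.Finite) := by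
  have main : ∀ k m p : ℕ, 1 ≤ k → 3 ≤ m → p.Prime → p ≠ 2 →
      (Is2NearPerfect (2 ^ k * p ^ m) ↔ m = 3 ∧ p + 1 = 2 ^ (k + 1)) := by
    intro k m p hk hm hp hp2
    constructor
    · exact forward k m p hk hm hp hp2
    · rintro ⟨rfl, h⟩
      exact backward k p hp hp2 h
  refine ⟨main, ?_, ?_⟩
  · intro hfin
    have h3 := hfin 3 le_rfl
    -- the map `p ↦ ((p+1)/2) p^3` sends Mersenne primes into the set for `m = 3`
    have hsub : {p : ℕ | p.Prime ∧ ∃ q : ℕ, p = 2 ^ q - 1} ⊆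
        (fun p : ℕ => (p + 1) / 2 * p ^ 3) ⁻¹'
          {n : ℕ | ∃ k p : ℕ, 1 ≤ k ∧ p.Prime ∧ p ≠ 2 ∧ n = 2 ^ k * p ^ 3 ∧ Is2NearPerfect n} := by
      rintro p ⟨hp, q, hq⟩
      have hq2 : 2 ≤ q := by
        by_contra hcon
        have h4 : q ≤ 1 := by omega
        have h5 : 2 ^ q ≤ 2 ^ 1 := Nat.pow_le_pow_right (by norm_num) h4
        have h6 := hp.two_le
        omega
      obtain ⟨k, rfl⟩ : ∃ k, q = k + 1 + 1 := ⟨q - 2, by omega⟩
      have hpow : (2 : ℕ) ^ (k + 1 + 1) = 2 * 2 ^ (k + 1) := pow_succ' _ _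
      have hpow' : (2 : ℕ) ^ (k + 1) = 2 * 2 ^ k := pow_succ' _ _
      have hpos : 0 < (2 : ℕ) ^ k := by positivity
      have hp1 : p + 1 = 2 ^ (k + 1 + 1) := by omega
      have hp2 : p ≠ 2 := by omega
      have hhalf : (p + 1) / 2 = 2 ^ (k + 1) := by omega
      refine ⟨k + 1, p, by omega, hp, hp2, ?_, ?_⟩
      · show (p + 1) / 2 * p ^ 3 = 2 ^ (k + 1) * p ^ 3
        rw [hhalf]
      · show Is2NearPerfect ((p + 1) / 2 * p ^ 3)
        rw [hhalf]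
        exact backward (k + 1) p hp hp2 hp1
    refine Set.Finite.subset (h3.preimage ?_) hsub
    have hmono : StrictMonoOn (fun p : ℕ => (p + 1) / 2 * p ^ 3) {p : ℕ | 1 ≤ p} := by
      intro a ha b hb hab
      change 1 ≤ a at ha; change 1 ≤ b at hb
      show (a + 1) / 2 * a ^ 3 < (b + 1) / 2 * b ^ 3
      have h1 : (a + 1) / 2 ≤ (b + 1) / 2 := Nat.div_le_div_right (by omega)
      have h2 : a ^ 3 < b ^ 3 := Nat.pow_lt_pow_left hab (by norm_num)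
      have h3 : 0 < (b + 1) / 2 := by omega
      calc (a + 1) / 2 * a ^ 3 ≤ (b + 1) / 2 * a ^ 3 := Nat.mul_le_mul_right _ h1
        _ < (b + 1) / 2 * b ^ 3 := (Nat.mul_lt_mul_left h3).2 h2
    intro a ha b hb hab
    have ha1 : 1 ≤ a := by
      rcases Nat.eq_zero_or_pos a with h | h
      · exfalso
        obtain ⟨k, p, hk, hp, -, he, -⟩ := ha
        subst h
        have : 0 < 2 ^ k * p ^ 3 := Nat.mul_pos (by positivity) (pow_pos hp.pos _)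
        simp only [ne_eq, OfNat.ofNat_ne_zero, not_false_eq_true, zero_pow, mul_zero] at he
        omega
      · exact h
    have hb1 : 1 ≤ b := by
      rcases Nat.eq_zero_or_pos b with h | h
      · exfalso
        obtain ⟨k, p, hk, hp, -, he, -⟩ := hb
        subst h
        have : 0 < 2 ^ k * p ^ 3 := Nat.mul_pos (by positivity) (pow_pos hp.pos _)
        simp only [ne_eq, OfNat.ofNat_ne_zero, not_false_eq_true, zero_pow, mul_zero] at he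
        omega
      · exact h
    exact hmono.injOn ha1 hb1 hab
  · intro hfin m hm
    refine Set.Finite.subset (hfin.image (fun p : ℕ => (p + 1) / 2 * p ^ 3)) ?_
    rintro n ⟨k, p, hk, hp, hp2, rfl, hn⟩
    obtain ⟨rfl, h⟩ := forward k m p hk hm hp hp2 hn
    refine ⟨p, ⟨hp, k + 1, by omega⟩, ?_⟩
    have hpow : (2 : ℕ) ^ (k + 1) = 2 * 2 ^ k := pow_succ' _ _
    have hhalf : (p + 1) / 2 = 2 ^ k := by omega
    show (p + 1) / 2 * p ^ 3 = 2 ^ k * p ^ 3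
    rw [hhalf]

end Pool.Agent.Results.MP_24a6f7_nt.TwoNearPerfectClassification
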